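import Pool.Agent.H50.BU.Main

/-!
A small Bohr set is contained in an arithmetic progression.
-/

set_option autoImplicit false

open MeasureTheory Filter Topology Set

namespace Pool.Agent.H50.BU

lemma small_bohr (A : Finset UnitAddCircle) : ∃ ε : ℝ, 0 < ε ∧
    ∀ k : ℤ, (∀ α ∈ A, ‖k • α‖ < ε) → (ord A : ℤ) ∣ k := by
  classical
  set m := ord A with hm
  have hm0 : 0 < m := ord_pos A
  have hmR : (0 : ℝ) < m := by exact_mod_cast hm0
  have hfinT := prim_finite A
  set T := prim (AddSubgroup.closure (A : Set UnitAddCircle)) with hT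
  have hTfin : (T : Set UnitAddCircle).Finite := Set.toFinite _
  have h1 : ∀ θ ∈ AddSubgroup.closure (A : Set UnitAddCircle), ∃ K : ℝ, 0 ≤ K ∧
      ∀ δ : ℝ, ∀ k : ℤ, (∀ α ∈ A, ‖k • α‖ < δ) → 0 < δ → ‖k • θ‖ ≤ K * δ := by
    intro θ hθ
    induction hθ using AddSubgroup.closure_induction with
    | mem x hx =>
      refine ⟨1, zero_le_one, fun δ k hk _ => ?_⟩
      rw [one_mul]
      exact (hk x hx).le
    | zero =>
      refine ⟨0, le_rfl, fun δ k hk _ => ?_⟩
      simp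
    | add x y _ _ ihx ihy =>
      obtain ⟨K, hK0, hK⟩ := ihx
      obtain ⟨K', hK0', hK'⟩ := ihy
      refine ⟨K + K', add_nonneg hK0 hK0', fun δ k hk hδ => ?_⟩
      rw [smul_add, add_mul]
      exact (norm_add_le _ _).trans (add_le_add (hK δ k hk hδ) (hK' δ k hk hδ))
    | neg x _ ihx =>
      obtain ⟨K, hK0, hK⟩ := ihx
      refine ⟨K, hK0, fun δ k hk hδ => ?_⟩
      rw [smul_neg, norm_neg]
      exact hK δ k hk hδ
  have h2 : ∀ θ : T, ∃ K : ℝ, 0 ≤ K ∧
      ∀ δ : ℝ, ∀ k : ℤ, (∀ α ∈ A, ‖k • α‖ < δ) → 0 < δ → ‖k • (θ : UnitAddCircle)‖ ≤ K * δ :=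
    fun θ => h1 θ θ.2.1
  choose K hK0 hK using h2
  cases nonempty_fintype T
  set K' : ℝ := ∑ θ, K θ with hK'
  have hKle : ∀ θ, K θ ≤ K' := fun θ => Finset.single_le_sum (fun i _ => hK0 i) (Finset.mem_univ θ)
  have hK'0 : 0 ≤ K' := Finset.sum_nonneg fun i _ => hK0 i
  refine ⟨1 / (m * (K' + 1)), by positivity, fun k hk => ?_⟩
  have hpos : (0 : ℝ) < 1 / (m * (K' + 1)) := by positivity
  have h3 : ∀ θ ∈ T, k • θ = 0 := by
    intro θ hθ
    by_contra hne
    have hmk : m • (k • θ) = 0 := by rw [smul_comm, ord_smul hθ, smul_zero]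
    have hfo : IsOfFinAddOrder (k • θ) := isOfFinAddOrder_iff_nsmul_eq_zero.2 ⟨m, hm0, hmk⟩
    have h4 := AddCircle.le_add_order_smul_norm_of_isOfFinAddOrder (p := (1 : ℝ)) hfo hne
    have h5 : addOrderOf (k • θ) ≤ m := addOrderOf_le_of_nsmul_eq_zero hm0 hmk
    have h6 := hK ⟨θ, hθ⟩ _ k hk hpos
    have h7 : K ⟨θ, hθ⟩ * (1 / (m * (K' + 1))) ≤ K' * (1 / (m * (K' + 1))) :=
      mul_le_mul_of_nonneg_right (hKle _) hpos.le
    have h8 : (addOrderOf (k • θ) : ℝ) * ‖k • θ‖ ≤ m * ‖k • θ‖ :=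
      mul_le_mul_of_nonneg_right (by exact_mod_cast h5) (norm_nonneg _)
    have h9 : (m : ℝ) * ‖k • θ‖ ≤ m * (K' * (1 / (m * (K' + 1)))) :=
      mul_le_mul_of_nonneg_left (h6.trans h7) hmR.le
    have h10 : (m : ℝ) * (K' * (1 / (m * (K' + 1)))) < 1 := by
      have : (m : ℝ) * (K' * (1 / (m * (K' + 1)))) = K' / (K' + 1) := by
        field_simp
      rw [this, div_lt_one (by positivity)]
      linarith
    rw [nsmul_eq_mul] at h4
    linarith
  -- the group contains `1 / m`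
  set R : Finset UnitAddCircle := (Finset.range m).image fun j : ℕ => (((j : ℝ) / m * 1 : ℝ) : UnitAddCircle) with hR
  have hTR : (T : Set UnitAddCircle) ⊆ R := by
    intro θ hθ
    obtain ⟨j, hj, hj2⟩ := (AddCircle.nsmul_eq_zero_iff (p := (1 : ℝ)) hm0).1 (ord_smul hθ)
    rw [hR, Finset.coe_image]
    exact ⟨j, by simpa using hj, hj2⟩
  have hcard : R.card ≤ (T : Set UnitAddCircle).ncard := by
    have e : (T : Set UnitAddCircle).ncard = m := rfl
    rw [e]
    refine Finset.card_image_le.trans ?_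
    rw [Finset.card_range]
  have hEq : (T : Set UnitAddCircle) = R := by
    refine Set.eq_of_subset_of_ncard_le hTR ?_ (Finset.finite_toSet R)
    rw [Set.ncard_coe_finset]
    exact hcard
  by_cases hm1 : m = 1
  · rw [hm1]; exact one_dvd _
  have h11 : (((1 : ℝ) / m : ℝ) : UnitAddCircle) ∈ (T : Set UnitAddCircle) := by
    rw [hEq, hR, Finset.coe_image]
    exact ⟨1, by simp; omega, by simp⟩
  have h12 := h3 _ h11
  rw [← AddCircle.coe_zsmul, AddCircle.coe_eq_zero_iff] at h12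
  obtain ⟨n, hn⟩ := h12
  refine ⟨n, ?_⟩
  have h13 : (k : ℝ) = m * n := by
    have : (n : ℝ) = k * (1 / m) := by simpa using hn
    rw [this]; field_simp
  exact_mod_cast h13

end Pool.Agent.H50.BU
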