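import Pool.Agent.H50.BU.Tent
import Pool.Agent.H50.Sep.Rel

/-!
Decoupling of the cosets in a relation between translates.
-/

set_option autoImplicit false

open MeasureTheory Filter Topology Set
open scoped ENNReal BoundedContinuousFunction

namespace Pool.Agent.H50.BU

open Pool.Agent.H50.Sep

variable {κ : Measure UnitAddCircle} [IsProbabilityMeasure κ] {ι : Type} [Countable ι]

/-- bounded Borel functions -/
def BM (H : UnitAddCircle → ℂ) : Prop := Measurable H ∧ ∃ K : ℝ, ∀ x, ‖H x‖ ≤ K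

lemma BM.mul {H H' : UnitAddCircle → ℂ} (h : BM H) (h' : BM H') : BM (fun x => H x * H' x) := by
  obtain ⟨h1, K, h2⟩ := h
  obtain ⟨h1', K', h2'⟩ := h'
  refine ⟨h1.mul h1', K * K', fun x => ?_⟩
  rw [norm_mul]
  exact mul_le_mul (h2 x) (h2' x) (norm_nonneg _) ((norm_nonneg _).trans (h2 x))

lemma BM.sub {H H' : UnitAddCircle → ℂ} (h : BM H) (h' : BM H') : BM (fun x => H x - H' x) := by
  obtain ⟨h1, K, h2⟩ := h
  obtain ⟨h1', K', h2'⟩ := h'
  exact ⟨h1.sub h1', K + K', fun x => (norm_sub_le _ _).trans (add_le_add (h2 x) (h2' x))⟩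

lemma BM.add {H H' : UnitAddCircle → ℂ} (h : BM H) (h' : BM H') : BM (fun x => H x + H' x) := by
  obtain ⟨h1, K, h2⟩ := h
  obtain ⟨h1', K', h2'⟩ := h'
  exact ⟨h1.add h1', K + K', fun x => (norm_add_le _ _).trans (add_le_add (h2 x) (h2' x))⟩

lemma BM.shift {H : UnitAddCircle → ℂ} (h : BM H) (t : UnitAddCircle) : BM (fun x => H (x + t)) := by
  obtain ⟨h1, K, h2⟩ := h
  exact ⟨h1.comp (measurable_add_const t), K, fun x => h2 _⟩

lemma BM.cont (ψ : C(UnitAddCircle, ℂ)) : BM ψ := ⟨ψ.continuous.measurable, ‖ψ‖, ψ.norm_coe_le_norm⟩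

lemma BM.integrable {H : UnitAddCircle → ℂ} (h : BM H) (ν : Measure UnitAddCircle) [IsFiniteMeasure ν] :
    Integrable H ν := by
  obtain ⟨h1, K, h2⟩ := h
  exact Integrable.mono' (integrable_const K) h1.aestronglyMeasurable (Eventually.of_forall h2)

/-- the sum of the translates -/
noncomputable def tau (κ : Measure UnitAddCircle) (w : ι → ℝ) (θ : ι → UnitAddCircle) :
    Measure UnitAddCircle :=
  Measure.sum fun i => ENNReal.ofReal (w i) • κ.map (fun x => x + θ i)

lemma tau_finite {w : ι → ℝ} (θ : ι → UnitAddCircle) (hw0 : ∀ i, 0 ≤ w i) (hws : Summable w) :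
    IsFiniteMeasure (tau κ w θ) := by
  refine ⟨?_⟩
  unfold tau
  rw [Measure.sum_apply _ MeasurableSet.univ]
  have h1 : ∀ i, (ENNReal.ofReal (w i) • κ.map (fun x => x + θ i)) univ = ENNReal.ofReal (w i) := by
    intro i
    rw [Measure.smul_apply, Measure.map_apply (measurable_add_const _) MeasurableSet.univ, preimage_univ,
      measure_univ, smul_eq_mul, mul_one]
  simp only [h1]
  rw [← ENNReal.ofReal_tsum_of_nonneg hw0 hws]
  exact ENNReal.ofReal_lt_top

/-- the functional of the relation -/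
noncomputable def LL (κ : Measure UnitAddCircle) (h : UnitAddCircle → ℂ) (c : ι → ℂ)
    (θ : ι → UnitAddCircle) (H : UnitAddCircle → ℂ) : ℂ :=
  ∑' i, c i * ∫ x, H (x + θ i) * h x ∂κ

section

variable {h : UnitAddCircle → ℂ} (hh : Measurable h) {C : ℝ} (hC : ∀ x, ‖h x‖ ≤ C) {c : ι → ℂ}
  {w : ι → ℝ} {θ : ι → UnitAddCircle} (hw0 : ∀ i, 0 ≤ w i) (hws : Summable w) (hcw : ∀ i, ‖c i‖ = w i)

include hh hC hws hcw in
lemma LL_summable {H : UnitAddCircle → ℂ} (hH : BM H) :
    Summable fun i => c i * ∫ x, H (x + θ i) * h x ∂κ := by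
  obtain ⟨h1, K, h2⟩ := hH
  refine Summable.of_norm_bounded (g := fun i => w i * (K * C)) (hws.mul_right _) fun i => ?_
  rw [norm_mul, hcw]
  refine mul_le_mul_of_nonneg_left ?_ (by rw [← hcw]; exact norm_nonneg _)
  have h3 := norm_integral_le_of_norm_le_const (μ := κ) (f := fun x => H (x + θ i) * h x) (C := K * C)
    (Eventually.of_forall fun x => by
      rw [norm_mul]
      exact mul_le_mul (h2 _) (hC x) (norm_nonneg _) ((norm_nonneg _).trans (h2 (x + θ i))))
  rwa [measureReal_def, measure_univ, ENNReal.toReal_one, mul_one] at h3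

include hh hC hw0 hws hcw in
lemma LL_bound {H H' : UnitAddCircle → ℂ} (hH : BM H) (hH' : BM H') :
    ‖LL κ h c θ H - LL κ h c θ H'‖ ≤ C * ∫ x, ‖H x - H' x‖ ∂(tau κ w θ) := by
  have hfin : IsFiniteMeasure (tau κ w θ) := tau_finite θ hw0 hws
  have hsub := hH.sub hH'
  have hint : Integrable (fun x => ‖H x - H' x‖) (tau κ w θ) := (hsub.integrable _).norm
  have h1 := hasSum_integral_measure (μ := fun i => ENNReal.ofReal (w i) • κ.map (fun x => x + θ i)) hint
  have h2 : ∀ i, ∫ x, ‖H x - H' x‖ ∂(ENNReal.ofReal (w i) • κ.map (fun x => x + θ i)) =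
      w i * ∫ x, ‖H (x + θ i) - H' (x + θ i)‖ ∂κ := by
    intro i
    rw [integral_smul_measure, ENNReal.toReal_ofReal (hw0 i),
      integral_map (measurable_add_const _).aemeasurable hsub.1.norm.aestronglyMeasurable, smul_eq_mul]
  simp only [h2] at h1
  have h3 : LL κ h c θ H - LL κ h c θ H' =
      ∑' i, c i * ∫ x, (H (x + θ i) - H' (x + θ i)) * h x ∂κ := by
    unfold LL
    rw [← (LL_summable hh hC hws hcw hH).tsum_sub (LL_summable hh hC hws hcw hH')]
    refine tsum_congr fun i => ?_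
    rw [← mul_sub, ← integral_sub]
    · congr 1
      refine integral_congr_ae (Eventually.of_forall fun x => ?_)
      show _ - _ = _
      ring
    · exact ((hH.shift _).mul ⟨hh, C, hC⟩).integrable _
    · exact ((hH'.shift _).mul ⟨hh, C, hC⟩).integrable _
  rw [h3]
  have h4 := h1.mul_left C
  refine tsum_of_norm_bounded h4 fun i => ?_
  rw [norm_mul, hcw, ← mul_assoc, mul_comm C, mul_assoc]
  refine mul_le_mul_of_nonneg_left ?_ (hw0 i)
  rw [← integral_const_mul]
  refine (norm_integral_le_integral_norm _).trans ?_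
  refine integral_mono (((hH.shift _).sub (hH'.shift _)).mul ⟨hh, C, hC⟩ |>.integrable _).norm
    ((((hH.shift _).sub (hH'.shift _)).integrable _).norm.const_mul C) fun x => ?_
  show ‖(H (x + θ i) - H' (x + θ i)) * h x‖ ≤ C * ‖H (x + θ i) - H' (x + θ i)‖
  rw [norm_mul, mul_comm]
  exact mul_le_mul_of_nonneg_right (hC x) (norm_nonneg _)

/-- the functions along which the functional decays -/
def Dec (κ : Measure UnitAddCircle) (h : UnitAddCircle → ℂ) (c : ι → ℂ)
    (θ : ι → UnitAddCircle) (H : UnitAddCircle → ℂ) : Prop :=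
  Tendsto (fun n : ℤ => LL κ h c θ (fun x => H x * (fourier n x : ℂ))) cofinite (𝓝 0)

include hh hC hw0 hws hcw in
lemma Dec.closure {H : UnitAddCircle → ℂ} (hH : BM H)
    (hap : ∀ δ : ℝ, 0 < δ → ∃ H' : UnitAddCircle → ℂ, BM H' ∧ Dec κ h c θ H' ∧
      ∫ x, ‖H x - H' x‖ ∂(tau κ w θ) ≤ δ) : Dec κ h c θ H := by
  have hC0 : 0 ≤ C := (norm_nonneg _).trans (hC 0)
  unfold Dec
  rw [Metric.tendsto_nhds]
  intro ε hε
  obtain ⟨H', hH', hd, hδ⟩ := hap (ε / (2 * (C + 1))) (by positivity)
  have h1 := (Metric.tendsto_nhds.1 hd) (ε / 2) (by positivity)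
  filter_upwards [h1] with n hn
  rw [dist_zero_right] at hn ⊢
  have h2 := LL_bound (κ := κ) (θ := θ) hh hC hw0 hws hcw (hH.mul (BM.cont (fourier n)))
    (hH'.mul (BM.cont (fourier n)))
  have h3 : ∫ x, ‖H x * (fourier n x : ℂ) - H' x * (fourier n x : ℂ)‖ ∂(tau κ w θ) =
      ∫ x, ‖H x - H' x‖ ∂(tau κ w θ) := by
    refine integral_congr_ae (Eventually.of_forall fun x => ?_)
    show ‖H x * (fourier n x : ℂ) - H' x * (fourier n x : ℂ)‖ = ‖H x - H' x‖
    have : ‖(fourier n x : ℂ)‖ = 1 := Circle.norm_coe _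
    rw [← sub_mul, norm_mul, this, mul_one]
  rw [h3] at h2
  have h4 : C * ∫ x, ‖H x - H' x‖ ∂(tau κ w θ) ≤ C * (ε / (2 * (C + 1))) :=
    mul_le_mul_of_nonneg_left hδ hC0
  have h5 : C * (ε / (2 * (C + 1))) < ε / 2 := by
    rw [mul_div_assoc', div_lt_div_iff₀ (by positivity) (by norm_num)]
    nlinarith
  have h6 := norm_sub_norm_le (LL κ h c θ fun x => H x * (fourier n x : ℂ))
    (LL κ h c θ fun x => H' x * (fourier n x : ℂ))
  linarith

include hh hC hws hcw in
lemma LL_add {H H' : UnitAddCircle → ℂ} (hH : BM H) (hH' : BM H') :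
    LL κ h c θ (fun x => H x + H' x) = LL κ h c θ H + LL κ h c θ H' := by
  unfold LL
  rw [← (LL_summable hh hC hws hcw hH).tsum_add (LL_summable hh hC hws hcw hH')]
  refine tsum_congr fun i => ?_
  rw [← mul_add, ← integral_add]
  · congr 1
    refine integral_congr_ae (Eventually.of_forall fun x => ?_)
    show _ = _ + _
    ring
  · exact ((hH.shift _).mul ⟨hh, C, hC⟩).integrable _
  · exact ((hH'.shift _).mul ⟨hh, C, hC⟩).integrable _

lemma LL_smul (a : ℂ) (H : UnitAddCircle → ℂ) :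
    LL κ h c θ (fun x => a * H x) = a * LL κ h c θ H := by
  unfold LL
  rw [← tsum_mul_left]
  refine tsum_congr fun i => ?_
  have : ∫ x, a * H (x + θ i) * h x ∂κ = a * ∫ x, H (x + θ i) * h x ∂κ := by
    rw [← integral_const_mul]
    refine integral_congr_ae (Eventually.of_forall fun x => ?_)
    show _ = _
    ring
  rw [this]
  ring

include hh hC hw0 hws hcw in
/-- decay along the characters implies decay along all bounded Borel functions -/
theorem Dec.all (h0 : Tendsto (fun n : ℤ => LL κ h c θ (fun x => (fourier n x : ℂ))) cofinite (𝓝 0))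
    {H : UnitAddCircle → ℂ} (hH : BM H) : Dec κ h c θ H := by
  have hfin : IsFiniteMeasure (tau κ w θ) := tau_finite θ hw0 hws
  have hC0 : 0 ≤ C := (norm_nonneg _).trans (hC 0)
  have hshift : ∀ m : ℤ, Tendsto (fun n : ℤ => m + n) cofinite cofinite := fun m =>
    (add_right_injective m).tendsto_cofinite
  -- trigonometric polynomials
  have h1 : ∀ ψ ∈ Submodule.span ℂ (range (fourier (T := (1 : ℝ)))), Dec κ h c θ ψ := by
    intro ψ hψ
    induction hψ using Submodule.span_induction with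
    | mem ψ hψ =>
      obtain ⟨m, rfl⟩ := hψ
      unfold Dec
      refine (h0.comp (hshift m)).congr fun n => ?_
      show LL κ h c θ (fun x => (fourier (m + n) x : ℂ)) = _
      congr 1
      funext x
      rw [fourier_add]
    | zero =>
      unfold Dec
      refine tendsto_const_nhds.congr fun n => ?_
      show (0 : ℂ) = LL κ h c θ (fun x => (0 : C(UnitAddCircle, ℂ)) x * (fourier n x : ℂ))
      unfold LL
      simp
    | add ψ ψ' _ _ i1 i2 =>
      unfold Dec at *
      have := i1.add i2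
      rw [add_zero] at this
      refine this.congr fun n => ?_
      rw [← LL_add hh hC hws hcw ((BM.cont ψ).mul (BM.cont _)) ((BM.cont ψ').mul (BM.cont _))]
      congr 1
      funext x
      rw [ContinuousMap.add_apply]
      ring
    | smul a ψ _ i1 =>
      unfold Dec at *
      have := i1.const_mul a
      rw [mul_zero] at this
      refine this.congr fun n => ?_
      rw [← LL_smul]
      congr 1
      funext x
      rw [ContinuousMap.smul_apply, smul_eq_mul]
      ring
  -- continuous functions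
  have h2 : ∀ ψ : C(UnitAddCircle, ℂ), Dec κ h c θ ψ := by
    intro ψ
    refine Dec.closure hh hC hw0 hws hcw (BM.cont ψ) fun δ hδ => ?_
    have h3 : ψ ∈ (Submodule.span ℂ (range (fourier (T := (1 : ℝ))))).topologicalClosure := by
      rw [span_fourier_closure_eq_top]; trivial
    have h4 : ψ ∈ _root_.closure ((Submodule.span ℂ (range (fourier (T := (1 : ℝ)))) : Set C(UnitAddCircle, ℂ))) := h3
    obtain ⟨ψ', hψ', hd⟩ := Metric.mem_closure_iff.1 h4 (δ / ((tau κ w θ).real univ + 1)) (by positivity)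
    refine ⟨ψ', BM.cont ψ', h1 ψ' hψ', ?_⟩
    have h5 : ∀ x, ‖ψ x - ψ' x‖ ≤ δ / ((tau κ w θ).real univ + 1) := by
      intro x
      rw [← dist_eq_norm]
      exact (ContinuousMap.dist_apply_le_dist x).trans hd.le
    refine (integral_mono (((BM.cont ψ).sub (BM.cont ψ')).integrable _).norm
      (integrable_const (δ / ((tau κ w θ).real univ + 1))) h5).trans ?_
    rw [integral_const, smul_eq_mul, mul_div_assoc', div_le_iff₀ (by positivity)]
    nlinarith
  refine Dec.closure hh hC hw0 hws hcw hH fun δ hδ => ?_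
  obtain ⟨ψ, hψ1, -⟩ := (hH.integrable (tau κ w θ)).exists_boundedContinuous_integral_sub_le hδ
  exact ⟨ψ, BM.cont ψ.toContinuousMap, h2 ψ.toContinuousMap, hψ1⟩

end

end Pool.Agent.H50.BU
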