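import Pool.Agent.H50.BU.Core

/-!
Decay along a Bohr set implies decay along an arithmetic progression.
-/

set_option autoImplicit false

open MeasureTheory Filter Topology Set
open scoped ENNReal BoundedContinuousFunction

namespace Pool.Agent.H50.BU

open Pool.Agent.H50.Sep

/-- the elements of finite order prime to six of a subgroup of the circle -/
def prim (Λ : AddSubgroup UnitAddCircle) : AddSubgroup UnitAddCircle where
  carrier := {θ | θ ∈ Λ ∧ ∃ s : ℕ, 0 < s ∧ s.Coprime 6 ∧ s • θ = 0}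
  zero_mem' := ⟨Λ.zero_mem, 1, one_pos, by norm_num, smul_zero _⟩
  add_mem' := by
    rintro a b ⟨ha, s, hs1, hs2, hs3⟩ ⟨hb, s', hs1', hs2', hs3'⟩
    refine ⟨Λ.add_mem ha hb, s * s', Nat.mul_pos hs1 hs1', hs2.mul_left hs2', ?_⟩
    rw [smul_add, mul_comm s s', mul_smul, hs3, mul_comm s' s, mul_smul, hs3', smul_zero, smul_zero, add_zero]
  neg_mem' := by
    rintro a ⟨ha, s, hs1, hs2, hs3⟩
    exact ⟨Λ.neg_mem ha, s, hs1, hs2, by rw [smul_neg, hs3, neg_zero]⟩

lemma mem_prim {Λ : AddSubgroup UnitAddCircle} {θ : UnitAddCircle} :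
    θ ∈ prim Λ ↔ θ ∈ Λ ∧ ∃ s : ℕ, 0 < s ∧ s.Coprime 6 ∧ s • θ = 0 := Iff.rfl

lemma prim_finite (A : Finset UnitAddCircle) :
    Finite (prim (AddSubgroup.closure (A : Set UnitAddCircle))) := by
  have hspan : ∀ θ : UnitAddCircle, θ ∈ AddSubgroup.closure (A : Set UnitAddCircle) →
      θ ∈ Submodule.span ℤ (A : Set UnitAddCircle) := by
    intro θ hθ
    have : AddSubgroup.closure (A : Set UnitAddCircle) ≤
        (Submodule.span ℤ (A : Set UnitAddCircle)).toAddSubgroup := by
      rw [AddSubgroup.closure_le]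
      exact Submodule.subset_span
    exact this hθ
  have hfg : Module.Finite ℤ (Submodule.span ℤ (A : Set UnitAddCircle)) :=
    Module.Finite.span_of_finite ℤ A.finite_toSet
  let N : Submodule ℤ (Submodule.span ℤ (A : Set UnitAddCircle)) :=
    { carrier := {θ | ∃ s : ℕ, 0 < s ∧ s • θ = 0}
      zero_mem' := ⟨1, one_pos, smul_zero _⟩
      add_mem' := by
        rintro a b ⟨s, hs1, hs3⟩ ⟨s', hs1', hs3'⟩
        refine ⟨s * s', Nat.mul_pos hs1 hs1', ?_⟩
        rw [smul_add, mul_comm s s', mul_smul, hs3, mul_comm s' s, mul_smul, hs3', smul_zero, smul_zero,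
          add_zero]
      smul_mem' := by
        rintro c a ⟨s, hs1, hs3⟩
        exact ⟨s, hs1, by rw [smul_comm, hs3, smul_zero]⟩ }
  have hN : Module.Finite ℤ N := inferInstance
  have htor : Module.IsTorsion ℤ N := by
    rintro ⟨a, s, hs1, hs3⟩
    refine ⟨⟨(s : ℤ), mem_nonZeroDivisors_of_ne_zero (by exact_mod_cast hs1.ne')⟩, ?_⟩
    apply Subtype.ext
    show (s : ℤ) • a = 0
    rw [natCast_zsmul, hs3]
  have hfin : Finite N := Module.finite_of_fg_torsion N htor
  refine Finite.of_injective (fun θ : prim (AddSubgroup.closure (A : Set UnitAddCircle)) =>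
    (⟨⟨(θ : UnitAddCircle), hspan _ θ.2.1⟩, by
      obtain ⟨s, hs1, -, hs3⟩ := θ.2.2
      exact ⟨s, hs1, Subtype.ext hs3⟩⟩ : N)) ?_
  intro a b hab
  have h1 := congrArg (fun z : N => ((z : Submodule.span ℤ (A : Set UnitAddCircle)) : UnitAddCircle)) hab
  exact Subtype.ext h1

/-- the order of the group `prim` -/
noncomputable def ord (A : Finset UnitAddCircle) : ℕ :=
  Nat.card (prim (AddSubgroup.closure (A : Set UnitAddCircle)))

lemma ord_pos (A : Finset UnitAddCircle) : 0 < ord A := by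
  have := prim_finite A
  exact Nat.card_pos

lemma ord_smul {A : Finset UnitAddCircle} {θ : UnitAddCircle}
    (hθ : θ ∈ prim (AddSubgroup.closure (A : Set UnitAddCircle))) : ord A • θ = 0 := by
  have h : Nat.card (prim (AddSubgroup.closure (A : Set UnitAddCircle))) •
      (⟨θ, hθ⟩ : prim (AddSubgroup.closure (A : Set UnitAddCircle))) = 0 := card_nsmul_eq_zero'
  exact congrArg Subtype.val h

lemma ord_coprime (A : Finset UnitAddCircle) : (ord A).Coprime 6 := by
  have := prim_finite A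
  have key : ∀ p : ℕ, p.Prime → p ∣ ord A → ¬ p ∣ 6 := by
    intro p hp hpd hp6
    have : Fact p.Prime := ⟨hp⟩
    obtain ⟨x, hx⟩ := exists_prime_addOrderOf_dvd_card' p hpd
    obtain ⟨s, hs1, hs2, hs3⟩ := x.2.2
    have h1 : s • x = 0 := Subtype.ext hs3
    have h2 : p ∣ s := by rw [← hx]; exact addOrderOf_dvd_iff_nsmul_eq_zero.2 h1
    have h3 : p ∣ 1 := by rw [← hs2]; exact Nat.dvd_gcd h2 hp6
    exact hp.one_lt.ne' (Nat.dvd_one.1 h3)
  by_contra hcon
  obtain ⟨p, hp, h1⟩ := Nat.exists_prime_and_dvd hcon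
  exact key p hp (h1.trans (Nat.gcd_dvd_left _ _)) (h1.trans (Nat.gcd_dvd_right _ _))

/-- the Bohr set around `n₀` -/
def Bohr (A : Finset UnitAddCircle) (ε : ℝ) (n₀ : ℤ) : Set ℤ := {n | ∀ α ∈ A, ‖(n - n₀) • α‖ < ε}

variable {κ : Measure UnitAddCircle} [IsProbabilityMeasure κ]

theorem main (h2 : MeasurePreserving (fun x : UnitAddCircle => 2 • x) κ κ)
    (h3 : MeasurePreserving (fun x : UnitAddCircle => 3 • x) κ κ) (hs : κ ⟂ₘ volume)
    {h : UnitAddCircle → ℂ} (hh : Measurable h) {C : ℝ} (hC : ∀ x, ‖h x‖ ≤ C)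
    (A : Finset UnitAddCircle) {ε : ℝ} (hε : 0 < ε) (n₀ : ℤ)
    (hF : Tendsto (fun n : ℤ => ∫ x, (fourier n x : ℂ) * h x ∂κ) (cofinite ⊓ 𝓟 (Bohr A ε n₀)) (𝓝 0)) :
    Tendsto (fun n : ℤ => ∫ x, (fourier n x : ℂ) * h x ∂κ)
      (cofinite ⊓ 𝓟 {n : ℤ | (ord A : ℤ) ∣ n - n₀}) (𝓝 0) := by
  classical
  set F : ℤ → ℂ := fun n => ∫ x, (fourier n x : ℂ) * h x ∂κ with hFdef
  set Λ := AddSubgroup.closure (A : Set UnitAddCircle) with hΛ
  have hfinT := prim_finite A
  obtain ⟨ι, hι, w, θ, i₀, hw0, hws, hw1, hθ0, hθ, hw⟩ := exists_ser A hε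
  set c : ι → ℂ := fun i => (w i : ℂ) * (fourier (-n₀) (θ i) : ℂ) with hc
  have hn1 : ∀ (x : UnitAddCircle) (n : ℤ), ‖(fourier n x : ℂ)‖ = 1 := fun x n => Circle.norm_coe _
  have hcw : ∀ i, ‖c i‖ = w i := by
    intro i
    rw [hc]
    show ‖(w i : ℂ) * (fourier (-n₀) (θ i) : ℂ)‖ = w i
    rw [norm_mul, hn1, mul_one, Complex.norm_real, Real.norm_of_nonneg (hw0 i)]
  -- translation of characters
  have hint : ∀ (n : ℤ) (t : UnitAddCircle), ∫ x, (fourier n (x + t) : ℂ) * h x ∂κ =
      (fourier n t : ℂ) * F n := by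
    intro n t
    rw [hFdef]
    show _ = (fourier n t : ℂ) * ∫ x, (fourier n x : ℂ) * h x ∂κ
    rw [← integral_const_mul]
    refine integral_congr_ae (Eventually.of_forall fun x => ?_)
    show (fourier n (x + t) : ℂ) * h x = (fourier n t : ℂ) * ((fourier n x : ℂ) * h x)
    rw [fourier_apply, fourier_apply, fourier_apply, smul_add, AddCircle.toCircle_add, Circle.coe_mul]
    ring
  have hcn : ∀ (i : ι) (n : ℤ), c i * (fourier n (θ i) : ℂ) = (w i : ℂ) * (fourier (n - n₀) (θ i) : ℂ) := by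
    intro i n
    rw [hc]
    show (w i : ℂ) * (fourier (-n₀) (θ i) : ℂ) * (fourier n (θ i) : ℂ) = _
    rw [mul_assoc, ← fourier_add]
    congr 3
    ring
  have hL : ∀ n : ℤ, LL κ h c θ (fun x => (fourier n x : ℂ)) =
      (∑' i, (w i : ℂ) * (fourier (n - n₀) (θ i) : ℂ)) * F n := by
    intro n
    unfold LL
    rw [← tsum_mul_right]
    refine tsum_congr fun i => ?_
    rw [hint, ← mul_assoc, hcn]
  set W := ∑' i, w i with hWdef
  have hW0 : 0 ≤ W := tsum_nonneg hw0
  have hb : ∀ n : ℤ, ‖∑' i, (w i : ℂ) * (fourier (n - n₀) (θ i) : ℂ)‖ ≤ W := by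
    intro n
    refine tsum_of_norm_bounded hws.hasSum fun i => ?_
    rw [norm_mul, hn1, mul_one, Complex.norm_real, Real.norm_of_nonneg (hw0 i)]
  have h0 : Tendsto (fun n : ℤ => LL κ h c θ (fun x => (fourier n x : ℂ))) cofinite (𝓝 0) := by
    rw [Metric.tendsto_nhds]
    intro δ hδ
    have h1 := (Metric.tendsto_nhds.1 hF) (δ / (W + 1)) (by positivity)
    rw [eventually_inf_principal] at h1
    filter_upwards [h1] with n hn
    rw [dist_zero_right, hL, norm_mul]
    by_cases hnB : n ∈ Bohr A ε n₀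
    · have h4 := hn hnB
      rw [dist_zero_right] at h4
      calc ‖∑' i, (w i : ℂ) * (fourier (n - n₀) (θ i) : ℂ)‖ * ‖F n‖ ≤ W * (δ / (W + 1)) :=
            mul_le_mul (hb n) h4.le (norm_nonneg _) hW0
        _ < δ := by rw [mul_div_assoc', div_lt_iff₀ (by positivity)]; nlinarith
    · have h4 : ∃ α ∈ A, ε ≤ ‖(n - n₀) • α‖ := by
        unfold Bohr at hnB
        simp only [Set.mem_ofPred_eq] at hnB
        push Not at hnB
        exact hnB
      rw [hw _ h4, norm_zero, zero_mul]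
      exact hδ
  -- the separating set
  have hTfin0 : (prim Λ : Set UnitAddCircle).Finite := Set.toFinite _
  have hcnt : (⋃ t ∈ (prim Λ : Set UnitAddCircle), range fun i => θ i - t).Countable :=
    hTfin0.countable.biUnion fun t _ => countable_range _
  obtain ⟨E, hE1, hE2, hE3⟩ := exists_sep h2 h3 hs
    (D := {t | t ∈ (⋃ t ∈ (prim Λ : Set UnitAddCircle), range fun i => θ i - t) ∧ Far t})
    (hcnt.mono fun t ht => ht.1) (fun t ht => ht.2)
  set T := prim Λ with hT
  set S : Set UnitAddCircle := ⋃ θ ∈ (T : Set UnitAddCircle), (fun x => x + -θ) ⁻¹' E with hS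
  have hTfin : (T : Set UnitAddCircle).Finite := Set.toFinite _
  have hSm : MeasurableSet S :=
    MeasurableSet.biUnion hTfin.countable fun θ _ => measurable_add_const _ hE1
  have hind : ∀ᵐ x ∂κ, ∀ i, S.indicator (fun _ => (1 : ℂ)) (x + θ i) = if θ i ∈ T then 1 else 0 := by
    have hE2' : ∀ᵐ x ∂κ, x ∈ E := hE2
    filter_upwards [hE2', hE3] with x hx hx3 i
    by_cases hi : θ i ∈ T
    · rw [if_pos hi, indicator_of_mem]
      rw [hS]
      refine mem_biUnion hi ?_
      show x + θ i + -θ i ∈ E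
      rw [add_neg_cancel_right]
      exact hx
    · rw [if_neg hi, indicator_of_notMem]
      intro hmem
      rw [hS] at hmem
      obtain ⟨t, ht, hxt⟩ := mem_iUnion₂.1 hmem
      have hxt' : x + (θ i - t) ∈ E := by
        have : x + θ i + -t = x + (θ i - t) := by abel
        rw [← this]
        exact hxt
      refine hx3 _ ⟨mem_biUnion ht (mem_range_self i), ?_⟩ hxt'
      intro s hs1 hs2 hs3
      apply hi
      have h4 : θ i - t ∈ T := ⟨Λ.sub_mem (hθ i) ht.1, s, hs1, hs2, hs3⟩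
      have h5 := T.add_mem h4 ht
      rwa [sub_add_cancel] at h5
  have hdec := Dec.all (κ := κ) (θ := θ) hh hC hw0 hws hcw h0 (H := S.indicator (fun _ => (1 : ℂ)))
    ⟨measurable_const.indicator hSm, 1, fun x => by
      by_cases hx : x ∈ S
      · rw [indicator_of_mem hx]; simp
      · rw [indicator_of_notMem hx]; simp⟩
  -- evaluation
  have hval : ∀ n : ℤ, (ord A : ℤ) ∣ n - n₀ →
      LL κ h c θ (fun x => S.indicator (fun _ => (1 : ℂ)) x * (fourier n x : ℂ)) =
        ((∑' i, if θ i ∈ T then w i else 0 : ℝ) : ℂ) * F n := by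
    intro n hn
    unfold LL
    rw [Complex.ofReal_tsum, ← tsum_mul_right]
    refine tsum_congr fun i => ?_
    have h4 : ∫ x, S.indicator (fun _ => (1 : ℂ)) (x + θ i) * (fourier n (x + θ i) : ℂ) * h x ∂κ =
        (if θ i ∈ T then 1 else 0) * ((fourier n (θ i) : ℂ) * F n) := by
      rw [← hint, ← integral_const_mul]
      refine integral_congr_ae ?_
      filter_upwards [hind] with x hx
      rw [hx i]
      ring
    rw [h4]
    by_cases hi : θ i ∈ T
    · rw [if_pos hi, if_pos hi, one_mul, ← mul_assoc, hcn]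
      have h5 : (fourier (n - n₀) (θ i) : ℂ) = 1 := by
        obtain ⟨k, hk⟩ := hn
        rw [hk, fourier_apply, mul_comm, mul_smul, natCast_zsmul, ord_smul hi, smul_zero,
          AddCircle.toCircle_zero, Circle.coe_one]
      rw [h5, mul_one]
    · rw [if_neg hi, if_neg hi]
      simp
  have hpos : 0 < ∑' i, (if θ i ∈ T then w i else 0 : ℝ) := by
    have h4 : Summable fun i => (if θ i ∈ T then w i else 0 : ℝ) := by
      refine Summable.of_nonneg_of_le (fun i => ?_) (fun i => ?_) hws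
      · split_ifs
        · exact hw0 i
        · exact le_rfl
      · split_ifs
        · exact le_rfl
        · exact hw0 i
    refine h4.tsum_pos (fun i => ?_) i₀ ?_
    · split_ifs
      · exact hw0 i
      · exact le_rfl
    · rw [if_pos (by rw [hθ0]; exact T.zero_mem)]
      exact hw1
  set V := ∑' i, (if θ i ∈ T then w i else 0 : ℝ) with hV
  have hfinal : Tendsto (fun n : ℤ => (V : ℂ)⁻¹ *
      LL κ h c θ (fun x => S.indicator (fun _ => (1 : ℂ)) x * (fourier n x : ℂ))) cofinite (𝓝 0) := by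
    have := hdec.const_mul (V : ℂ)⁻¹
    rwa [mul_zero] at this
  refine (hfinal.mono_left inf_le_left).congr' ?_
  rw [eventuallyEq_inf_principal_iff]
  refine Eventually.of_forall fun n hn => ?_
  rw [hval n hn, ← mul_assoc, inv_mul_cancel₀ (by exact_mod_cast hpos.ne'), one_mul]

end Pool.Agent.H50.BU
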