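import Pool.Agent.H50.BU.Arith
import Pool.Agent.H50.Tr.Reg

/-!
Linear combinations of tracial states: their values on the powers of a translation.
-/

set_option autoImplicit false

open MeasureTheory Filter Topology Set
open scoped ENNReal ComplexOrder

namespace Pool.Agent.H50.BU

open Pool.Agent.H50.Tr

/-- invariant singular finite measures -/
structure IS (ν : Measure UnitAddCircle) : Prop where
  fin : IsFiniteMeasure ν
  two : MeasurePreserving (fun x : UnitAddCircle => 2 • x) ν ν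
  three : MeasurePreserving (fun x : UnitAddCircle => 3 • x) ν ν
  sing : ν ⟂ₘ volume

lemma mp_add {s : ℕ} {ν ν' : Measure UnitAddCircle} (h : MeasurePreserving (fun x : UnitAddCircle => s • x) ν ν)
    (h' : MeasurePreserving (fun x : UnitAddCircle => s • x) ν' ν') :
    MeasurePreserving (fun x : UnitAddCircle => s • x) (ν + ν') (ν + ν') := by
  refine ⟨h.measurable, ?_⟩
  rw [Measure.map_add _ _ h.measurable, h.map_eq, h'.map_eq]

lemma IS.add {ν ν' : Measure UnitAddCircle} (h : IS ν) (h' : IS ν') : IS (ν + ν') := by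
  have := h.fin
  have := h'.fin
  exact ⟨inferInstance, mp_add h.two h'.two, mp_add h.three h'.three, h.sing.add_left h'.sing⟩

lemma is_dirac : IS (Measure.dirac (0 : UnitAddCircle)) := by
  have hm : ∀ s : ℕ, MeasurePreserving (fun x : UnitAddCircle => s • x) (Measure.dirac (0 : UnitAddCircle))
      (Measure.dirac 0) := by
    intro s
    have hs : Measurable fun x : UnitAddCircle => s • x := (continuous_nsmul s).measurable
    refine ⟨hs, ?_⟩
    rw [Measure.map_dirac' hs, smul_zero]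
  refine ⟨inferInstance, hm 2, hm 3, {0}ᶜ, (measurableSet_singleton _).compl, ?_, ?_⟩
  · rw [Measure.dirac_apply' _ (measurableSet_singleton _).compl]
    simp
  · rw [compl_compl, ← Metric.closedBall_zero, AddCircle.volume_closedBall]
    simp

lemma density_aux {α : Type} [MeasurableSpace α] {ν κ : Measure α} [IsFiniteMeasure ν]
    [IsFiniteMeasure κ] (hle : ν ≤ κ) : ∃ r : α → ℝ, Measurable r ∧ (∀ x, 0 ≤ r x) ∧ (∀ x, r x ≤ 1) ∧
      ∀ f : α → ℂ, ∫ x, r x • f x ∂κ = ∫ x, f x ∂ν := by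
  have hac : ν ≪ κ := Measure.absolutelyContinuous_of_le hle
  have hle1 := Measure.rnDeriv_le_one_of_le hle
  set r : α → ℝ := fun x => min (ν.rnDeriv κ x).toReal 1 with hr
  have hrm : Measurable r := (Measure.measurable_rnDeriv ν κ).ennreal_toReal.min measurable_const
  have hrae : ∀ᵐ x ∂κ, r x = (ν.rnDeriv κ x).toReal := by
    filter_upwards [hle1] with x hx
    rw [hr]
    refine min_eq_left ?_
    have := ENNReal.toReal_mono ENNReal.one_ne_top hx
    rwa [ENNReal.toReal_one] at this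
  refine ⟨r, hrm, fun x => le_min ENNReal.toReal_nonneg zero_le_one, fun x => min_le_right _ _, fun f => ?_⟩
  rw [← integral_rnDeriv_smul hac]
  refine integral_congr_ae ?_
  filter_upwards [hrae] with x hx
  rw [hx]

/-- a bounded density -/
lemma exists_density {ν κ : Measure UnitAddCircle} [IsFiniteMeasure ν] [IsFiniteMeasure κ] (hle : ν ≤ κ)
    {h : UnitAddCircle → ℂ} (hh : BM h) : ∃ h' : UnitAddCircle → ℂ, BM h' ∧
      ∀ ψ : C(UnitAddCircle, ℂ), ∫ x, ψ x * h' x ∂κ = ∫ x, ψ x * h x ∂ν := by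
  obtain ⟨r, hrm, hr0, hr1, hr⟩ := density_aux hle
  obtain ⟨hh1, K, hK⟩ := hh
  refine ⟨fun x => (r x : ℂ) * h x, ⟨(Complex.measurable_ofReal.comp hrm).mul hh1, K, fun x => ?_⟩, fun ψ => ?_⟩
  · rw [norm_mul, Complex.norm_real, Real.norm_of_nonneg (hr0 x)]
    have := hK x
    have h0 := norm_nonneg (h x)
    nlinarith [hr0 x, hr1 x]
  · rw [← hr fun x => ψ x * h x]
    refine integral_congr_ae (Eventually.of_forall fun x => ?_)
    show ψ x * ((r x : ℂ) * h x) = r x • (ψ x * h x)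
    rw [Complex.real_smul]
    ring

/-- common normalisation of two densities -/
lemma combine {ν ν' : Measure UnitAddCircle} (hν : IS ν) (hν' : IS ν') (hne : ν + ν' ≠ 0)
    {h h' : UnitAddCircle → ℂ} (hh : BM h) (hh' : BM h') :
    ∃ (κ : Measure UnitAddCircle) (k : UnitAddCircle → ℂ), IsProbabilityMeasure κ ∧ IS κ ∧ BM k ∧
      ∀ ψ : C(UnitAddCircle, ℂ), ∫ x, ψ x * k x ∂κ = ∫ x, ψ x * h x ∂ν + ∫ x, ψ x * h' x ∂ν' := by
  have := hν.fin
  have := hν'.fin
  obtain ⟨k₁, hk₁, e₁⟩ := exists_density (ν := ν) (κ := ν + ν') (Measure.le_add_right le_rfl) hh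
  obtain ⟨k₂, hk₂, e₂⟩ := exists_density (ν := ν') (κ := ν + ν') (Measure.le_add_left le_rfl) hh'
  set M := (ν + ν') univ with hM
  have hM0 : M ≠ 0 := fun h0 => hne (Measure.measure_univ_eq_zero.1 h0)
  have hM1 : M ≠ ∞ := measure_ne_top _ _
  have hI := hν.add hν'
  have hmp : ∀ s : ℕ, MeasurePreserving (fun x : UnitAddCircle => s • x) (ν + ν') (ν + ν') →
      MeasurePreserving (fun x : UnitAddCircle => s • x) (M⁻¹ • (ν + ν')) (M⁻¹ • (ν + ν')) := by
    intro s hs
    refine ⟨hs.measurable, ?_⟩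
    rw [Measure.map_smul, hs.map_eq]
  have hprob : IsProbabilityMeasure (M⁻¹ • (ν + ν')) := by
    refine ⟨?_⟩
    rw [Measure.smul_apply, smul_eq_mul, ← hM, ENNReal.inv_mul_cancel hM0 hM1]
  have hMr : (M.toReal : ℂ) ≠ 0 := by
    exact_mod_cast (ENNReal.toReal_pos hM0 hM1).ne'
  refine ⟨M⁻¹ • (ν + ν'), fun x => (M.toReal : ℂ) * (k₁ x + k₂ x), hprob,
    ⟨inferInstance, hmp 2 hI.two, hmp 3 hI.three, hI.sing.smul _⟩, ?_, fun ψ => ?_⟩
  · have h0 : BM (fun _ : UnitAddCircle => (M.toReal : ℂ)) := ⟨measurable_const, ‖(M.toReal : ℂ)‖, fun _ => le_rfl⟩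
    exact h0.mul (hk₁.add hk₂)
  · rw [integral_smul_measure, ← e₁, ← e₂, ← integral_add]
    · have : ∫ x, ψ x * ((M.toReal : ℂ) * (k₁ x + k₂ x)) ∂(ν + ν') =
          (M.toReal : ℂ) * ∫ x, (ψ x * k₁ x + ψ x * k₂ x) ∂(ν + ν') := by
        rw [← integral_const_mul]
        refine integral_congr_ae (Eventually.of_forall fun x => ?_)
        show _ = _
        ring
      rw [this, ENNReal.toReal_inv, Complex.real_smul, ← mul_assoc]
      push_cast
      rw [inv_mul_cancel₀ hMr, one_mul]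
    · exact ((BM.cont ψ).mul hk₁).integrable _
    · exact ((BM.cont ψ).mul hk₂).integrable _

/-- the values on the powers of a translation are given by a bounded density -/
def Rep {G : Subgroup (Equiv.Perm ℚ)} (g : G) (F : G → ℂ) : Prop :=
  ∃ (κ : Measure UnitAddCircle) (h : UnitAddCircle → ℂ), IsProbabilityMeasure κ ∧ IS κ ∧ BM h ∧
    ∀ n : ℤ, n ≠ 0 → F (g ^ n) = ∫ x, (fourier n x : ℂ) * h x ∂κ

section

variable {s2 s3 t : Equiv.Perm ℚ} {G : Subgroup (Equiv.Perm ℚ)}

lemma rep_trace (hs2 : ∀ x, s2 x = 2 * x) (hs3 : ∀ x, s3 x = 3 * x) (ht : ∀ x, t x = x + 1)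
    (hG : G = Subgroup.closure {s2, s3, t}) {φ : G → ℂ} (hφ : φ ∈ Traces G) {g : G}
    (hg : IsTranslation g) : Rep g φ := by
  obtain ⟨μ, hprob, h2, h3, hval⟩ := trace_measure hs2 hs3 ht hG hφ hg
  obtain ⟨c, hinv, hadd⟩ := Q70.Af.decomp (p := 2) (q := 3) le_rfl (by norm_num) (μ := μ) ⟨h2, h3⟩
  have hfin : IsFiniteMeasure (μ.singularPart volume) :=
    isFiniteMeasure_of_le μ (Measure.singularPart_le _ _)
  have hI : IS (μ.singularPart volume) := ⟨hfin, hinv.1, hinv.2, Measure.mutuallySingular_singularPart _ _⟩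
  have hone : BM (fun _ : UnitAddCircle => (1 : ℂ)) := ⟨measurable_const, 1, fun _ => by simp⟩
  have hzero : BM (fun _ : UnitAddCircle => (0 : ℂ)) := ⟨measurable_const, 0, fun _ => by simp⟩
  obtain ⟨κ, k, hκ1, hκ2, hk, e⟩ := combine is_dirac hI (by
    intro h0
    have h1 := congrArg (fun ν : Measure UnitAddCircle => ν univ) h0
    simp only [Measure.add_apply, measure_univ, Measure.coe_zero, Pi.zero_apply] at h1
    exact absurd h1 (by simp)) hzero hone
  refine ⟨κ, k, hκ1, hκ2, hk, fun n hn => ?_⟩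
  rw [hval, e]
  have hc : c ≠ ∞ := by
    intro hc
    have h1 := congrArg (fun ν : Measure UnitAddCircle => ν univ) hadd
    simp only [Measure.add_apply, Measure.smul_apply, measure_univ, hc] at h1
    simp at h1
  conv_lhs => rw [hadd]
  have hfc : IsFiniteMeasure (c • (volume : Measure UnitAddCircle)) :=
    ⟨by rw [Measure.smul_apply, smul_eq_mul]; exact ENNReal.mul_lt_top hc.lt_top (measure_lt_top _ _)⟩
  rw [integral_add_measure ((BM.cont (fourier n)).integrable _) ((BM.cont (fourier n)).integrable _),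
    integral_smul_measure, Pool.Agent.H769R3.integral_fourier_volume hn, smul_zero, add_zero]
  simp

theorem rep_span (hs2 : ∀ x, s2 x = 2 * x) (hs3 : ∀ x, s3 x = 3 * x) (ht : ∀ x, t x = x + 1)
    (hG : G = Subgroup.closure {s2, s3, t}) {F : G → ℂ} (hF : F ∈ Submodule.span ℂ (Traces G)) {g : G}
    (hg : IsTranslation g) : Rep g F := by
  induction hF using Submodule.span_induction with
  | mem φ hφ => exact rep_trace hs2 hs3 ht hG hφ hg
  | zero =>
    refine ⟨Measure.dirac 0, fun _ => 0, inferInstance, is_dirac, ⟨measurable_const, 0, fun _ => by simp⟩,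
      fun n _ => ?_⟩
    simp
  | add F F' _ _ h1 h2 =>
    obtain ⟨κ, h, hp, hI, hB, e⟩ := h1
    obtain ⟨κ', h', hp', hI', hB', e'⟩ := h2
    obtain ⟨κ'', k, hκ1, hκ2, hk, e''⟩ := combine hI hI' (by
      intro h0
      have h1 := congrArg (fun ν : Measure UnitAddCircle => ν univ) h0
      simp only [Measure.add_apply, measure_univ, Measure.coe_zero, Pi.zero_apply] at h1
      exact absurd h1 (by simp)) hB hB'
    refine ⟨κ'', k, hκ1, hκ2, hk, fun n hn => ?_⟩
    rw [Pi.add_apply, e n hn, e' n hn, e'']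
  | smul a F _ h1 =>
    obtain ⟨κ, h, hp, hI, hB, e⟩ := h1
    refine ⟨κ, fun x => a * h x, hp, hI, ?_, fun n hn => ?_⟩
    · have h0 : BM (fun _ : UnitAddCircle => a) := ⟨measurable_const, ‖a‖, fun _ => le_rfl⟩
      exact h0.mul hB
    · rw [Pi.smul_apply, e n hn, smul_eq_mul, ← integral_const_mul]
      refine integral_congr_ae (Eventually.of_forall fun x => ?_)
      show _ = _
      ring

/-- invariance along the powers -/
theorem span_inv (hs2 : ∀ x, s2 x = 2 * x) (hs3 : ∀ x, s3 x = 3 * x)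
    (hG : G = Subgroup.closure {s2, s3, t}) {F : G → ℂ} (hF : F ∈ Submodule.span ℂ (Traces G)) {g : G}
    (hg : IsTranslation g) (n : ℤ) : F (g ^ (6 * n)) = F (g ^ n) := by
  have hcl : ∀ a b : G, F (b * a * b⁻¹) = F a := by
    induction hF using Submodule.span_induction with
    | mem φ hφ => exact hφ.2.1
    | zero => intro a b; rfl
    | add F F' _ _ h1 h2 => intro a b; rw [Pi.add_apply, Pi.add_apply, h1, h2]
    | smul c F _ h1 => intro a b; rw [Pi.smul_apply, Pi.smul_apply, h1]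
  have m2 : s2 ∈ G := by rw [hG]; exact Subgroup.subset_closure (by simp)
  have m3 : s3 ∈ G := by rw [hG]; exact Subgroup.subset_closure (by simp)
  obtain ⟨r, hg⟩ := hg
  have hpowN : ∀ (n : ℕ) (x : ℚ), ((g ^ n : G) : Equiv.Perm ℚ) x = x + n * r := by
    intro n
    induction n with
    | zero => intro x; simp
    | succ n ih =>
      intro x
      rw [pow_succ, Subgroup.coe_mul, Equiv.Perm.mul_apply, hg, ih]
      push_cast; ring
  have hpow : ∀ (n : ℤ) x, ((g ^ n : G) : Equiv.Perm ℚ) x = x + n * r := by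
    intro n x
    rcases Int.eq_nat_or_neg n with ⟨k, rfl | rfl⟩
    · rw [zpow_natCast, hpowN]; push_cast; ring
    · rw [zpow_neg, zpow_natCast]
      have h1 := hpowN k ((((g ^ k)⁻¹ : G) : Equiv.Perm ℚ) x)
      have h2 : ((g ^ k : G) : Equiv.Perm ℚ) ((((g ^ k)⁻¹ : G) : Equiv.Perm ℚ) x) = x := by
        rw [← Equiv.Perm.mul_apply, ← Subgroup.coe_mul, mul_inv_cancel]
        rfl
      rw [h2] at h1
      have h3 : (((g ^ k)⁻¹ : G) : Equiv.Perm ℚ) x = x - k * r := by linarith
      rw [h3]; push_cast; ring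
  set S : G := ⟨s2, m2⟩ * ⟨s3, m3⟩ with hS
  have hSx : ∀ x, (S : Equiv.Perm ℚ) x = 6 * x := by
    intro x
    rw [hS, Subgroup.coe_mul, Equiv.Perm.mul_apply]
    show s2 (s3 x) = 6 * x
    rw [hs3, hs2]; ring
  have e : g ^ (6 * n) = S * g ^ n * S⁻¹ := by
    rw [eq_mul_inv_iff_mul_eq]
    apply Subtype.ext
    apply Equiv.ext
    intro x
    have e1 : ((g ^ (6 * n) * S : G) : Equiv.Perm ℚ) x = ((g ^ (6 * n) : G) : Equiv.Perm ℚ) ((S : Equiv.Perm ℚ) x) := rfl
    have e2 : ((S * g ^ n : G) : Equiv.Perm ℚ) x = (S : Equiv.Perm ℚ) (((g ^ n : G) : Equiv.Perm ℚ) x) := rfl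
    rw [e1, e2, hSx, hSx, hpow, hpow]
    push_cast; ring
  rw [e, hcl]

end

end Pool.Agent.H50.BU
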