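import Mathlib

/-!
Almost periodic functions on the integers with non-negative summable coefficients which vanish off
a Bohr set.
-/

set_option autoImplicit false

open MeasureTheory Filter Topology Set AddCircle
open scoped ENNReal ComplexConjugate

namespace Pool.Agent.H50.BU

lemma coeff_translate (f : C(UnitAddCircle, ℂ)) (y : UnitAddCircle) (n : ℤ) :
    fourierCoeff (fun x : UnitAddCircle => f (x + y)) n = (fourier n y : ℂ) * fourierCoeff f n := by
  unfold fourierCoeff
  have h := integral_add_right_eq_self (μ := (haarAddCircle : Measure UnitAddCircle))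
    (fun t : UnitAddCircle => (fourier (-n) (t - y) : ℂ) • f t) y
  simp only [add_sub_cancel_right] at h
  rw [h, ← integral_const_mul]
  refine integral_congr_ae (Eventually.of_forall fun t => ?_)
  show (fourier (-n) (t - y) : ℂ) • f t = (fourier n y : ℂ) * ((fourier (-n) t : ℂ) • f t)
  rw [smul_eq_mul, smul_eq_mul, ← mul_assoc]
  congr 1
  rw [fourier_apply, fourier_apply, fourier_apply, ← Circle.coe_mul, ← toCircle_add]
  congr 2
  rw [smul_sub, neg_smul, neg_smul]
  abel

lemma hasSum_corr (f : C(UnitAddCircle, ℂ)) (y : UnitAddCircle) :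
    HasSum (fun k : ℤ => ((‖fourierCoeff f k‖ ^ 2 : ℝ) : ℂ) * (fourier k y : ℂ))
      (∫ x, f (x + y) * conj (f x) ∂(haarAddCircle : Measure UnitAddCircle)) := by
  let g : C(UnitAddCircle, ℂ) := ⟨fun x => f (x + y), by fun_prop⟩
  set F := ContinuousMap.toLp 2 (haarAddCircle : Measure UnitAddCircle) ℂ f with hF
  set G := ContinuousMap.toLp 2 (haarAddCircle : Measure UnitAddCircle) ℂ g with hG
  have h := (fourierBasis (T := (1 : ℝ))).hasSum_inner_mul_inner F G
  have h1 : inner ℂ F G = ∫ x, f (x + y) * conj (f x) ∂(haarAddCircle : Measure UnitAddCircle) := by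
    rw [hF, hG, ContinuousMap.inner_toLp]
    rfl
  rw [h1] at h
  refine h.congr_fun fun k => ?_
  have e1 : inner ℂ (fourierBasis (T := (1 : ℝ)) k) F = fourierCoeff f k := by
    rw [← HilbertBasis.repr_apply_apply, fourierBasis_repr, hF, fourierCoeff_toLp]
  have e2 : inner ℂ (fourierBasis (T := (1 : ℝ)) k) G = (fourier k y : ℂ) * fourierCoeff f k := by
    rw [← HilbertBasis.repr_apply_apply, fourierBasis_repr, hG, fourierCoeff_toLp, ← coeff_translate]
    rfl
  rw [e2, ← inner_conj_symm, e1]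
  push_cast
  rw [← Complex.conj_mul']
  ring

lemma exists_tent {ε : ℝ} (hε : 0 < ε) : ∃ w : ℤ → ℝ, (∀ k, 0 ≤ w k) ∧ Summable w ∧ 0 < w 0 ∧
    ∀ y : UnitAddCircle, ε ≤ ‖y‖ → ∑' k : ℤ, (w k : ℂ) * (fourier k y : ℂ) = 0 := by
  let r : UnitAddCircle → ℝ := fun x => max 0 (ε / 2 - ‖x‖)
  have hr : Continuous r := by fun_prop
  let f : C(UnitAddCircle, ℂ) := ⟨fun x => (r x : ℂ), by fun_prop⟩
  refine ⟨fun k => ‖fourierCoeff f k‖ ^ 2, fun k => by positivity, ?_, ?_, fun y hy => ?_⟩
  · have h := (hasSum_corr f 0).summable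
    simp only [fourier_eval_zero, mul_one] at h
    exact Complex.summable_ofReal.1 h
  · have h1 : fourierCoeff f 0 = ((∫ x, r x ∂(haarAddCircle : Measure UnitAddCircle) : ℝ) : ℂ) := by
      unfold fourierCoeff
      rw [← integral_complex_ofReal]
      refine integral_congr_ae (Eventually.of_forall fun x => ?_)
      simp [f]
    have h2 : 0 < ∫ x, r x ∂(haarAddCircle : Measure UnitAddCircle) := by
      refine hr.integral_pos_of_hasCompactSupport_nonneg_nonzero
        (HasCompactSupport.of_compactSpace _) (fun x => le_max_left _ _) (x := 0) ?_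
      simp only [r, norm_zero, sub_zero]
      exact (lt_max_of_lt_right (by positivity)).ne'
    have h3 : fourierCoeff f 0 ≠ 0 := by
      rw [h1]
      exact_mod_cast h2.ne'
    positivity
  · have h := (hasSum_corr f y).tsum_eq
    rw [h]
    refine integral_eq_zero_of_ae (Eventually.of_forall fun x => ?_)
    show ((r (x + y) : ℝ) : ℂ) * conj ((r x : ℝ) : ℂ) = 0
    by_cases h1 : ‖x‖ < ε / 2
    · have h2 : ε / 2 ≤ ‖x + y‖ := by
        have h3 : ‖y‖ ≤ ‖x + y‖ + ‖x‖ := by
          have := norm_sub_le (x + y) x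
          rwa [add_sub_cancel_left] at this
        linarith
      have : r (x + y) = 0 := max_eq_left (by linarith)
      rw [this]; simp
    · have : r x = 0 := max_eq_left (by linarith)
      rw [this]; simp

/-- a non-negative summable combination of characters which vanishes off a Bohr set -/
theorem exists_ser (A : Finset UnitAddCircle) {ε : ℝ} (hε : 0 < ε) :
    ∃ (ι : Type) (_ : Countable ι) (w : ι → ℝ) (θ : ι → UnitAddCircle) (i₀ : ι),
      (∀ i, 0 ≤ w i) ∧ Summable w ∧ 0 < w i₀ ∧ θ i₀ = 0 ∧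
      (∀ i, θ i ∈ AddSubgroup.closure (A : Set UnitAddCircle)) ∧
      ∀ k : ℤ, (∃ α ∈ A, ε ≤ ‖k • α‖) → ∑' i, (w i : ℂ) * (fourier k (θ i) : ℂ) = 0 := by
  classical
  obtain ⟨u, hu0, hus, hu1, hu⟩ := exists_tent hε
  induction A using Finset.induction_on with
  | empty =>
    refine ⟨Unit, inferInstance, fun _ => 1, fun _ => 0, (), fun _ => zero_le_one, ?_, one_pos, rfl,
      fun _ => AddSubgroup.zero_mem _, fun k ⟨α, hα, _⟩ => absurd hα (Finset.notMem_empty _)⟩
    exact summable_of_finite_support (Set.toFinite _)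
  | insert a A ha ih =>
    obtain ⟨ι, hι, w, θ, i₀, hw0, hws, hw1, hθ0, hθ, hw⟩ := ih
    refine ⟨ℤ × ι, inferInstance, fun p => u p.1 * w p.2, fun p => p.1 • a + θ p.2, (0, i₀),
      fun p => mul_nonneg (hu0 _) (hw0 _), hus.mul_of_nonneg hws hu0 hw0, mul_pos hu1 hw1, by simp [hθ0],
      fun p => ?_, ?_⟩
    · refine AddSubgroup.add_mem _ (AddSubgroup.zsmul_mem _ (AddSubgroup.subset_closure (by simp)) _) ?_
      exact AddSubgroup.closure_mono (by simp) (hθ p.2)
    · rintro k ⟨α, hα, hk⟩
      have e : (fun p : ℤ × ι => ((u p.1 * w p.2 : ℝ) : ℂ) * (fourier k (p.1 • a + θ p.2) : ℂ)) =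
          fun p : ℤ × ι => ((u p.1 : ℂ) * (fourier p.1 (k • a) : ℂ)) * ((w p.2 : ℂ) * (fourier k (θ p.2) : ℂ)) := by
        funext p
        have e1 : (fourier k (p.1 • a + θ p.2) : ℂ) = (fourier p.1 (k • a) : ℂ) * (fourier k (θ p.2) : ℂ) := by
          rw [fourier_apply, fourier_apply, fourier_apply, smul_add, toCircle_add, Circle.coe_mul,
            smul_comm]
        rw [e1]
        push_cast
        ring
      rw [e]
      have hn : ∀ (x : UnitAddCircle) (n : ℤ), ‖(fourier n x : ℂ)‖ = 1 := fun x n => Circle.norm_coe _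
      have s1 : Summable fun l : ℤ => ‖(u l : ℂ) * (fourier l (k • a) : ℂ)‖ := by
        refine hus.congr fun l => ?_
        rw [norm_mul, hn, mul_one, Complex.norm_real, Real.norm_of_nonneg (hu0 l)]
      have s2 : Summable fun i : ι => ‖(w i : ℂ) * (fourier k (θ i) : ℂ)‖ := by
        refine hws.congr fun i => ?_
        rw [norm_mul, hn, mul_one, Complex.norm_real, Real.norm_of_nonneg (hw0 i)]
      rw [← tsum_mul_tsum_of_summable_norm s1 s2]
      rcases Finset.mem_insert.1 hα with rfl | hα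
      · rw [hu _ hk, zero_mul]
      · rw [hw k ⟨α, hα, hk⟩, mul_zero]

end Pool.Agent.H50.BU
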